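import Mathlib
import Pool.Agent.Q190.RV.Quad
import Pool.Agent.Q18.P.Cat

/-!
# More than half of the central values are large, and the Riemann hypothesis: one inequality for each level

Let `f_1, …, f_M` be the newforms of `H_2^+(N)`, `a_i(p)` the `p`-th Hecke eigenvalue of `f_i` (`|a_i(p)| ≤ 2 √p`), `S` a finite
set of primes containing `N`, and `F_i(s) = ∏_{p ∉ S} (1 - a_i(p) p^{-s} + p^{1-2s})⁻¹`, so that `F_i(s) = L(s - 1/2, f_i)` up to
the Euler factors at `S`. For a set `I` of indices put `P_I*(y) = ∏_{i ∈ I} exp (- ∑_{p^k ≤ y} (α^k + β^k)/(k p^k))`, `α`, `β` the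
roots of `X² - a_i(p) X + p`. Fix `0 < δ < 1`; the windows are `[Y^(1-δ), Y]`.

1. For `C > 0`: (no `F_i`, `i ∈ I`, has a zero with `Re s > 1`, and `∏_{i ∈ I} F_i(1) ≥ C`) if and only if
   `∫ log⁺ (C P_I*(y)) dy/y ≤ ε log Y` for each `ε > 0` and arbitrarily large `Y` (one sequence of windows); if and only if this
   holds for all large `Y`.
2. If this is so with `C = (log N)^(-B |I|)`, i.e. if the GEOMETRIC MEAN of the `F_i(1)`, `i ∈ I`, is at least `(log N)^(-B)`, and
   `∑_i F_i(1) ≤ M (log N)^(C₀)`, then the number `g` of the `i` such that `F_i` has no zeros with `Re s > 1` and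
   `F_i(1) > (log N)^(-A)` satisfies `(A - B) |I| l - M ≤ (A + C₀) l g`, `l = log log N`.
3. Along a sequence of levels, equivalent: for some `A` and `θ > 1/2`, at least `θ M` of the `F_i` have no zeros with
   `Re s > 1` and satisfy `F_i(1) > (log N)^(-A)`, for all large `N`; for some `B` and `θ > 1/2`, for all large `N` there is `I` with
   `|I| ≥ θ M` and ONE inequality of 1., `C = (log N)^(-B |I|)`, on one sequence of windows; the same on all windows.
-/

set_option autoImplicit false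

namespace Pool.Agent.Results.MP_cc4f83_nt.GeometricMeanWindows

open Filter Topology Set Complex NumberField IsDedekindDomain MeasureTheory
open Pool.Agent.Q190.RV.Quad (Bound Euler)
open Pool.Agent.Q18.P (MeanBound Pure Holo IsLeading ratio excess)
open Pool.Agent.TH270.MS (LI)

section generic

variable {K : Type} [Field K] [NumberField K] {N : ℕ}
variable {i : ℕ} {c : ℝ} {S : Finset (HeightOneSpectrum (𝓞 K))} {α : HeightOneSpectrum (𝓞 K) → Fin N → ℂ} {F : ℂ → ℂ}

theorem win_int {f : ℝ → ℝ} (hf : LI f) {δ Y : ℝ} (h0 : 0 < δ) (hY : Real.exp 1 ≤ Y ^ (1 - δ)) (hY1 : 1 ≤ Y) :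
    Y ^ (1 - δ) ≤ Y ∧ IntervalIntegrable (fun y => f y / y) volume (Y ^ (1 - δ)) Y := by
  have hle : Y ^ (1 - δ) ≤ Y := by
    conv_rhs => rw [← Real.rpow_one Y]
    exact Real.rpow_le_rpow_of_exponent_le hY1 (by linarith)
  exact ⟨hle, ((hf.div _ hY).symm).trans (hf.div Y (hY.trans hle))⟩

theorem win_late {f g : ℝ → ℝ} (hf : LI f) (hg : LI g) (h : ∀ᶠ y : ℝ in atTop, f y ≤ g y) {δ : ℝ}
    (h0 : 0 < δ) (h1 : δ < 1) : ∀ᶠ Y : ℝ in atTop,
      ∫ y in Y ^ (1 - δ)..Y, f y / y ≤ ∫ y in Y ^ (1 - δ)..Y, g y / y := by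
  obtain ⟨y₀, hy₀⟩ := eventually_atTop.1 h
  have ht := (tendsto_rpow_atTop (show 0 < 1 - δ by linarith)).eventually_ge_atTop (max (Real.exp 1) y₀)
  filter_upwards [ht, eventually_ge_atTop 1] with Y hY' hY1
  have hY : Real.exp 1 ≤ Y ^ (1 - δ) := (le_max_left _ _).trans hY'
  have hY2 : y₀ ≤ Y ^ (1 - δ) := (le_max_right _ _).trans hY'
  have hle := (win_int hf h0 hY hY1).1
  refine intervalIntegral.integral_mono_on hle (win_int hf h0 hY hY1).2 (win_int hg h0 hY hY1).2 fun y hy => ?_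
  have hy0 : 0 < y := (Real.exp_pos 1).trans_le (hY.trans hy.1)
  have := hy₀ y (hY2.trans hy.1)
  gcongr

theorem win_add {f : ℝ → ℝ} (hf : LI f) (B : ℝ) {δ : ℝ} (h0 : 0 < δ) (h1 : δ < 1) : ∀ᶠ Y : ℝ in atTop,
    ∫ y in Y ^ (1 - δ)..Y, (f y + B) / y = (∫ y in Y ^ (1 - δ)..Y, f y / y) + B * (δ * Real.log Y) := by
  have ht := (tendsto_rpow_atTop (show 0 < 1 - δ by linarith)).eventually_ge_atTop (Real.exp 1)
  filter_upwards [ht, eventually_ge_atTop 1] with Y hY hY1
  have hp : 0 < Y ^ (1 - δ) := (Real.exp_pos 1).trans_le hY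
  have hY0 : 0 < Y := by linarith
  simp only [add_div]
  rw [intervalIntegral.integral_add (win_int hf h0 hY hY1).2 (win_int (LI.const B) h0 hY hY1).2]
  congr 1
  have e1 : ∀ y : ℝ, B / y = B * (1 / y) := fun y => by ring
  simp only [e1]
  rw [intervalIntegral.integral_const_mul, integral_one_div_of_pos hp hY0,
    Real.log_div hY0.ne' hp.ne', Real.log_rpow hY0]
  ring

theorem li_ratio (hc : c = ((i : ℝ) + 1) / 2) (h : Pure i S α) (hH : Holo c F)
    (hE : Pool.Agent.Q18.P.Euler c S α F) {C : ℝ} (hC : 0 < C) (ρ : ℝ) :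
    LI (fun y => ratio (Pool.Agent.Q18.P.productStar c S α) C ρ y) := by
  obtain ⟨G₀, k, κ, η, C', H⟩ := Pool.Agent.Q18.P.mc hc h (Pool.Agent.Q18.P.tempered_of hH hE)
  have h1 := (Pool.Agent.Q5.MS.bm_dvR H ρ C).li
  intro Y hY
  refine (h1 Y hY).neg.congr fun y hy => ?_
  rw [uIoc_of_le hY] at hy
  exact (Pool.Agent.Q18.P.ratio_dv hc hC hy.1.le).symm

theorem li_star (hc : c = ((i : ℝ) + 1) / 2) (h : Pure i S α) (hH : Holo c F)
    (hE : Pool.Agent.Q18.P.Euler c S α F) {C : ℝ} (hC : 0 < C) :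
    LI (fun y => Real.log (C * Pool.Agent.Q18.P.productStar c S α y)) := by
  have h1 := li_ratio hc h hH hE hC ((0 : ℤ) : ℝ)
  simpa only [Pool.Agent.Q18.P.ratio_zero] using h1

/-- lower bounds of the central value -/
theorem lower_value (hc : c = ((i : ℝ) + 1) / 2) (h : Pure i S α) (hH : Holo c F)
    (hE : Pool.Agent.Q18.P.Euler c S α F) {δ : ℝ} (h0 : 0 < δ) (h1 : δ < 1) {C : ℝ} (hC : 0 < C) : List.TFAE [
      Pool.Agent.Q18.P.NoZeros c F ∧ ∃ A : ℝ, C ≤ A ∧ F c = A,
      ∀ ε : ℝ, 0 < ε → ∃ᶠ Y : ℝ in atTop,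
        MeanBound δ (fun y => max (Real.log (C * Pool.Agent.Q18.P.productStar c S α y)) 0) ε Y,
      ∀ ε : ℝ, 0 < ε → ∀ᶠ Y : ℝ in atTop,
        MeanBound δ (fun y => max (Real.log (C * Pool.Agent.Q18.P.productStar c S α y)) 0) ε Y] := by
  have L := Pool.Agent.Q18.P.laws hc h.le hH hE h0 h1
  have li : LI (fun y => Real.log (C * Pool.Agent.Q18.P.productStar c S α y)) := li_star hc h hH hE hC
  have hpos : ∀ y, 0 < Pool.Agent.Q18.P.productStar c S α y := fun y => Pool.Agent.Q18.P.star_pos y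
  tfae_have 1 → 3 := by
    rintro ⟨hz, A, hCA, hA⟩ ε hε
    have hA0 : 0 < A := hC.trans_le hCA
    have tt := (Pool.Agent.Q18.P.value_real hc h hH hE h0 h1 hA0).out 0 2
    have t : ∀ ε : ℝ, 0 < ε → ∀ᶠ Y : ℝ in atTop,
        MeanBound δ (fun y => |Real.log (A * Pool.Agent.Q18.P.productStar c S α y)|) ε Y := tt.1 ⟨hz, hA⟩
    have w := win_late (Pool.Agent.Q18.W.LI.max0 li) (li_star hc h hH hE hA0).abs
      (Eventually.of_forall fun y => by
        refine max_le (le_trans ?_ (le_abs_self _)) (abs_nonneg _)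
        exact Real.log_le_log (mul_pos hC (hpos y)) (mul_le_mul_of_nonneg_right hCA (hpos y).le)) h0 h1
    filter_upwards [t ε hε, w] with Y h2 h3
    exact h3.trans h2
  tfae_have 3 → 2 := fun hB ε hε => (hB ε hε).frequently
  tfae_have 2 → 1 := by
    intro hB
    obtain ⟨M, hM⟩ := Pool.Agent.Q5.MS.close h.sys
    have hM0 : 0 ≤ M := (abs_nonneg _).trans (hM _ le_rfl)
    have hz : Pool.Agent.Q18.P.NoZeros c F := by
      have up := (L.upper 0).out 0 1
      refine (up.2 ⟨1 + (M + |Real.log C|), ?_⟩).1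
      have w := win_late (Pool.Agent.Q18.W.LI.max0 (Pool.Agent.Q18.P.li_log hc h 0))
        ((Pool.Agent.Q18.W.LI.max0 li).add (LI.const (M + |Real.log C|)))
        (eventually_atTop.2 ⟨Real.exp 1, fun y hy => by
          have h2 := (abs_le.1 (hM y hy)).2
          have h3 := Pool.Agent.Q18.P.log_product hc h y
          have h4 := Pool.Agent.Q18.P.log_star (S := S) (α := α) hc y
          have h5 : Real.log (C * Pool.Agent.Q18.P.productStar c S α y) =
              Real.log C + Real.log (Pool.Agent.Q18.P.productStar c S α y) :=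
            Real.log_mul hC.ne' (hpos y).ne'
          have h6 := neg_abs_le (Real.log C)
          have h7 := abs_nonneg (Real.log C)
          refine max_le ?_ ?_
          · rw [h3, zero_mul, sub_zero]
            have h8 := le_max_left (Real.log (C * Pool.Agent.Q18.P.productStar c S α y)) 0
            rw [h5, h4] at h8
            rw [h5, h4]
            linarith
          · have h8 := le_max_right (Real.log (C * Pool.Agent.Q18.P.productStar c S α y)) 0
            linarith⟩) h0 h1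
      refine ((hB 1 one_pos).and_eventually (w.and ((win_add (Pool.Agent.Q18.W.LI.max0 li) (M + |Real.log C|) h0 h1).and
        (eventually_ge_atTop 1)))).mono ?_
      rintro Y ⟨h2, h3, h4, h5⟩
      have h6 : 0 ≤ Real.log Y := Real.log_nonneg h5
      have h7 : 0 ≤ M + |Real.log C| := by positivity
      have h8 : (M + |Real.log C|) * (δ * Real.log Y) ≤ (M + |Real.log C|) * Real.log Y := by
        refine mul_le_mul_of_nonneg_left ?_ h7
        exact mul_le_of_le_one_left h6 h1.le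
      have h9 : ∫ y in Y ^ (1 - δ)..Y, max (Real.log (C * Pool.Agent.Q18.P.productStar c S α y)) 0 / y
        ≤ 1 * Real.log Y := h2
      rw [h4] at h3
      show ∫ y in Y ^ (1 - δ)..Y, excess (Pool.Agent.Q18.P.product c S α) 0 y / y ≤ _
      refine h3.trans ?_
      have h10 : (1 + (M + |Real.log C|)) * Real.log Y = 1 * Real.log Y + (M + |Real.log C|) * Real.log Y :=
        add_mul _ _ _
      rw [h10]
      exact add_le_add h9 h8
    obtain ⟨m, hm⟩ := Pool.Agent.Q18.P.order_finite hH hz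
    have hm0 := Pool.Agent.Q18.P.order_nonneg hH hm
    rcases hm0.eq_or_lt with h2 | h2
    · subst h2
      have hne : F c ≠ 0 := (Pool.Agent.Q18.P.value_iff hH).1 hm
      obtain ⟨A, hA, hFA⟩ := Pool.Agent.Q18.P.value_pos hc h hH hE hz hne
      refine ⟨hz, A, ?_, hFA⟩
      by_contra hlt
      push Not at hlt
      have ha : IsLeading c F 0 (A : ℂ) := (Pool.Agent.Q18.P.lead_zero hH).2 ⟨hne, hFA⟩
      obtain ⟨β, hβ, hom⟩ := L.omega 0 A ha C (by
        rw [Complex.norm_real, Real.norm_of_nonneg hA.le]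
        exact hlt)
      simp only [Pool.Agent.Q18.P.ratio_zero] at hom
      obtain ⟨Y, h3, h4⟩ := ((hB β hβ).and_eventually hom).exists
      exact h4 h3
    · exfalso
      obtain ⟨η, hη, hon⟩ := Pool.Agent.Q18.P.holo_analytic hH
      have hmero : MeromorphicAt F c := (hon _ (by
        show c - η < (c : ℂ).re
        rw [Complex.ofReal_re]
        linarith)).meromorphicAt
      obtain ⟨a, ha0, ha⟩ := Pool.Agent.Q18.P.exists_leading hmero hm
      have hA1 : 0 < ‖a‖ + 1 := by positivity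
      obtain ⟨β, hβ, hom⟩ := L.omega m a ha (‖a‖ + 1) (lt_add_one _)
      have hmr : (0 : ℝ) < m := by exact_mod_cast h2
      have ht : Tendsto (fun y : ℝ => (Real.exp Real.eulerMascheroniConstant * Real.log y) ^ (m : ℝ)) atTop atTop :=
        (tendsto_rpow_atTop hmr).comp (Real.tendsto_log_atTop.const_mul_atTop (Real.exp_pos _))
      have w := win_late (Pool.Agent.Q18.W.LI.max0 (li_ratio hc h hH hE hA1 (m : ℝ))) (Pool.Agent.Q18.W.LI.max0 li) (by
        filter_upwards [ht.eventually_ge_atTop ((‖a‖ + 1) / C), eventually_gt_atTop 1] with y h3 h4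
        refine max_le_max ?_ le_rfl
        have h5 : 0 < Real.log y := Real.log_pos h4
        have h6 : 0 < (Real.exp Real.eulerMascheroniConstant * Real.log y) ^ (m : ℝ) := by positivity
        unfold ratio
        refine Real.log_le_log (div_pos (mul_pos hA1 (hpos y)) h6) ?_
        rw [div_le_iff₀ h6]
        rw [div_le_iff₀ hC] at h3
        calc (‖a‖ + 1) * Pool.Agent.Q18.P.productStar c S α y ≤
              ((Real.exp Real.eulerMascheroniConstant * Real.log y) ^ (m : ℝ) * C) *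
                Pool.Agent.Q18.P.productStar c S α y := mul_le_mul_of_nonneg_right h3 (hpos y).le
          _ = _ := by ring) h0 h1
      obtain ⟨Y, h3, h4, h5⟩ := ((hB β hβ).and_eventually (hom.and w)).exists
      exact h4 (h5.trans h3)
  tfae_finish

end generic

/-- counting large numbers by their product and their sum -/
theorem count_lower {M : ℕ} (I : Finset (Fin M)) (x : Fin M → ℝ) (hx : ∀ i ∈ I, 0 < x i) {L A B C₀ : ℝ}
    (hprod : -(B * I.card * L) ≤ ∑ i ∈ I, Real.log (x i)) (hsum : ∑ i ∈ I, x i ≤ M * Real.exp (C₀ * L)) :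
    (A - B) * I.card * L - M ≤ (A + C₀) * L * (I.filter fun i => Real.exp (-(A * L)) < x i).card := by
  classical
  set g := (I.filter fun i => Real.exp (-(A * L)) < x i).card with hg
  have h1 : ∀ i ∈ I, Real.log (x i) ≤
      (if Real.exp (-(A * L)) < x i then C₀ * L else -(A * L)) + x i * Real.exp (-(C₀ * L)) := by
    intro i hi
    have h2 := hx i hi
    have h3 : 0 < x i * Real.exp (-(C₀ * L)) := mul_pos h2 (Real.exp_pos _)
    split_ifs with h4
    · have h5 := Real.log_le_sub_one_of_pos h3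
      rw [Real.log_mul h2.ne' (Real.exp_pos _).ne', Real.log_exp] at h5
      linarith
    · have h5 := Real.log_le_log h2 (not_lt.1 h4)
      rw [Real.log_exp] at h5
      linarith
  have h2 := Finset.sum_le_sum h1
  rw [Finset.sum_add_distrib, Finset.sum_ite, Finset.sum_const, Finset.sum_const, ← Finset.sum_mul, nsmul_eq_mul,
    nsmul_eq_mul, ← hg] at h2
  have h3 : ((I.filter fun i => ¬ Real.exp (-(A * L)) < x i).card : ℝ) = I.card - g := by
    have h4 := Finset.card_filter_add_card_filter_not (s := I) (fun i => Real.exp (-(A * L)) < x i)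
    have h5 : (g : ℝ) + ((I.filter fun i => ¬ Real.exp (-(A * L)) < x i).card : ℝ) = I.card := by
      rw [hg]
      exact_mod_cast h4
    linarith
  have h4 : (∑ i ∈ I, x i) * Real.exp (-(C₀ * L)) ≤ M := by
    have h5 := mul_le_mul_of_nonneg_right hsum (Real.exp_pos (-(C₀ * L))).le
    rw [mul_assoc, ← Real.exp_add, add_neg_cancel, Real.exp_zero, mul_one] at h5
    exact h5
  rw [h3] at h2
  nlinarith [h2, h4, hprod]

/-- the finite places of `ℚ`, the primes -/
abbrev Prime := HeightOneSpectrum (𝓞 ℚ)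

variable {M : ℕ}

/-- A family of `M` Euler products `F_i(s) = ∏_{p ∉ S} (1 - a_i(p) p^{-s} + p^{1-2s})⁻¹`, `|a_i(p)| ≤ 2 √p`, holomorphic and of
polynomial growth in a half plane `Re s > 1 - η`. -/
structure Family (M : ℕ) (S : Finset Prime) (a : Fin M → Prime → ℝ) (F : Fin M → ℂ → ℂ) : Prop where
  bound : ∀ i, Bound S (a i)
  euler : ∀ i, Euler S (a i) (F i)
  holo : ∀ i, ∃ (η C : ℝ) (k : ℕ), 0 < η ∧ ∀ s : ℂ, 1 - η < s.re → DifferentiableAt ℂ (F i) s ∧ ‖F i s‖ ≤ C * (1 + ‖s‖) ^ k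

/-- `P_I*(y)`, the product over the prime powers up to `y`, for the members `i ∈ I` of the family -/
noncomputable def productStar (S : Finset Prime) (a : Fin M → Prime → ℝ) (I : Finset (Fin M)) (y : ℝ) : ℝ :=
  ∏ i ∈ I, Pool.Agent.Q190.RV.Quad.productStar S (a i) y

/-- `F` has no zeros with `Re s > 1`. -/
def NoZeros (F : ℂ → ℂ) : Prop := ∀ s : ℂ, 1 < s.re → F s ≠ 0

/-- `log⁺ (C P(y))` -/
noncomputable def plus (C : ℝ) (P : ℝ → ℝ) (y : ℝ) : ℝ := max (Real.log (C * P y)) 0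

/-- the number of the `i` such that `F_i` has no zeros with `Re s > 1` and `F_i(1)` is a real number `> t` -/
noncomputable def good (F : Fin M → ℂ → ℂ) (t : ℝ) : ℕ :=
  Nat.card {i // NoZeros (F i) ∧ ∃ x : ℝ, t < x ∧ F i 1 = x}

theorem lower {S : Finset Prime} {a : Fin M → Prime → ℝ} {F : Fin M → ℂ → ℂ} (h : Family M S a F)
    (I : Finset (Fin M)) {δ : ℝ} (h0 : 0 < δ) (h1 : δ < 1) {C : ℝ} (hC : 0 < C) : List.TFAE [
      (∀ i ∈ I, NoZeros (F i)) ∧ ∃ A : ℝ, C ≤ A ∧ ∏ i ∈ I, F i 1 = A,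
      ∀ ε : ℝ, 0 < ε → ∃ᶠ Y : ℝ in atTop, MeanBound δ (plus C (productStar S a I)) ε Y,
      ∀ ε : ℝ, 0 < ε → ∀ᶠ Y : ℝ in atTop, MeanBound δ (plus C (productStar S a I)) ε Y] := by
  classical
  set r : (i : Fin M) → Prime → Fin 2 → ℂ := fun i => if i ∈ I then Pool.Agent.Q190.RV.Quad.al (a i) else fun _ _ => 0
    with hr
  set G : Fin M → ℂ → ℂ := fun i => if i ∈ I then F i else fun _ => 1 with hG
  have hp : ∀ i, Pure 1 S (r i) := by
    intro i
    simp only [hr]
    split_ifs with hi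
    · exact Pool.Agent.Q190.RV.Quad.pure (h.bound i)
    · refine ⟨fun v _ j => ?_, fun v _ k => ?_⟩
      · rw [norm_zero]
        positivity
      · rw [Complex.im_sum]
        refine Finset.sum_eq_zero fun j _ => ?_
        rcases k with _ | k <;> simp
  have hH : ∀ i, Holo 1 (G i) := by
    intro i
    simp only [hG]
    split_ifs with hi
    · exact h.holo i
    · exact ⟨1, 1, 0, one_pos, fun s _ => ⟨differentiableAt_const _, by simp⟩⟩
  have hE : ∀ i, Pool.Agent.Q18.P.Euler 1 S (r i) (G i) := by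
    intro i
    simp only [hG, hr]
    split_ifs with hi
    · exact fun s hs => Pool.Agent.Q190.RV.Quad.euler (h.bound i) (h.euler i) hs
    · intro s _
      simp only [zero_mul, sub_zero, Finset.prod_const_one, inv_one]
      exact hasProd_one
  have hP := Pool.Agent.Q18.P.cat_pure (N := fun _ : Fin M => 2) hp
  have hHp : Holo 1 (fun s => ∏ i, G i s) := Pool.Agent.Q18.P.holo_prod _ fun i _ => hH i
  have hEp := Pool.Agent.Q18.P.cat_euler (N := fun _ : Fin M => 2) hE
  have t := lower_value Pool.Agent.Q190.RV.Quad.one_c hP hHp hEp h0 h1 hC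
  have e1 : ∀ y, Pool.Agent.Q18.P.productStar 1 S (Pool.Agent.Q18.P.cat (N := fun _ : Fin M => 2) r) y =
      productStar S a I y := by
    intro y
    rw [Pool.Agent.Q18.P.star_cat]
    unfold productStar
    have e2 : ∀ i, Pool.Agent.Q18.P.productStar 1 S (r i) y =
        if i ∈ I then Pool.Agent.Q190.RV.Quad.productStar S (a i) y else 1 := by
      intro i
      simp only [hr]
      split_ifs with hi
      · rw [Pool.Agent.Q190.RV.Quad.star_eq (h.bound i)]
      · simp [Pool.Agent.Q18.P.productStar]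
    rw [Finset.prod_congr rfl fun i _ => e2 i, Finset.prod_ite_mem, Finset.univ_inter]
  have e3 : Pool.Agent.Q18.P.NoZeros 1 (fun s => ∏ i, G i s) ↔ ∀ i ∈ I, NoZeros (F i) := by
    rw [Pool.Agent.Q18.P.noZeros_prod]
    refine forall_congr' fun i => ?_
    simp only [hG]
    split_ifs with hi
    · exact ⟨fun h2 _ => h2, fun h2 => h2 hi⟩
    · exact ⟨fun _ h2 => absurd h2 hi, fun _ s _ => one_ne_zero⟩
  have e4 : (∏ i, G i ((1 : ℝ) : ℂ)) = ∏ i ∈ I, F i 1 := by
    have e2 : ∀ i, G i ((1 : ℝ) : ℂ) = if i ∈ I then F i 1 else 1 := by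
      intro i
      simp only [hG]
      split_ifs <;> simp
    rw [Finset.prod_congr rfl fun i _ => e2 i, Finset.prod_ite_mem, Finset.univ_inter]
  simp only [e1, e3, e4] at t
  exact t

/-- the members of the subfamily -/
theorem members {S : Finset Prime} {a : Fin M → Prime → ℝ} {F : Fin M → ℂ → ℂ} (h : Family M S a F)
    {i : Fin M} (hz : NoZeros (F i)) (hne : F i 1 ≠ 0) : ∃ x : ℝ, 0 < x ∧ F i 1 = x := by
  have h1 := Pool.Agent.Q18.P.value_pos (c := 1) Pool.Agent.Q190.RV.Quad.one_c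
    (Pool.Agent.Q190.RV.Quad.pure (h.bound i)) (h.holo i)
    (fun s hs => Pool.Agent.Q190.RV.Quad.euler (h.bound i) (h.euler i) hs) hz (by rwa [Complex.ofReal_one])
  simpa only [Complex.ofReal_one] using h1

/-- from the geometric mean to the number of large values -/
theorem from_mean {S : Finset Prime} {a : Fin M → Prime → ℝ} {F : Fin M → ℂ → ℂ} (h : Family M S a F)
    (hnn : ∀ i, 0 ≤ (F i 1).re) (I : Finset (Fin M)) {l A B C₀ : ℝ} (hl : 1 < l)
    (hsum : ∑ i, (F i 1).re ≤ M * l ^ C₀) (hz : ∀ i ∈ I, NoZeros (F i)) {Q : ℝ} (hQ : l ^ (-(B * I.card)) ≤ Q)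
    (hprod : ∏ i ∈ I, F i 1 = Q) :
    (A - B) * I.card * Real.log l - M ≤ (A + C₀) * Real.log l * good F (l ^ (-A)) ∨ A + C₀ < 0 := by
  classical
  by_cases hAC : A + C₀ < 0
  · exact Or.inr hAC
  refine Or.inl ?_
  have hl0 : 0 < l := by linarith
  have hQ0 : 0 < Q := (Real.rpow_pos_of_pos hl0 _).trans_le hQ
  have hne : ∀ i ∈ I, F i 1 ≠ 0 := by
    have h1 : ∏ i ∈ I, F i 1 ≠ 0 := by
      rw [hprod]
      exact_mod_cast hQ0.ne'
    exact Finset.prod_ne_zero_iff.1 h1
  have hx : ∀ i ∈ I, 0 < (F i 1).re ∧ F i 1 = ((F i 1).re : ℂ) := by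
    intro i hi
    obtain ⟨x, hx, he⟩ := members h (hz i hi) (hne i hi)
    rw [he]
    simpa using hx
  have hL : 0 < Real.log l := Real.log_pos hl
  have h2 : -(B * I.card * Real.log l) ≤ ∑ i ∈ I, Real.log (F i 1).re := by
    rw [← Real.log_prod fun i hi => (hx i hi).1.ne']
    have h3 : ∏ i ∈ I, (F i 1).re = Q := by
      have h4 : ((∏ i ∈ I, (F i 1).re : ℝ) : ℂ) = Q := by
        rw [← hprod]
        push_cast
        exact Finset.prod_congr rfl fun i hi => (hx i hi).2.symm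
      exact_mod_cast h4
    rw [h3]
    have h4 := Real.log_le_log (Real.rpow_pos_of_pos hl0 _) hQ
    rw [Real.log_rpow hl0] at h4
    linarith
  have h3 : ∑ i ∈ I, (F i 1).re ≤ M * Real.exp (C₀ * Real.log l) := by
    rw [mul_comm C₀, ← Real.rpow_def_of_pos hl0]
    exact (Finset.sum_le_sum_of_subset_of_nonneg (Finset.subset_univ I) fun i _ _ => hnn i).trans hsum
  have h4 := count_lower I (fun i => (F i 1).re) (fun i hi => (hx i hi).1) (A := A) h2 h3
  refine h4.trans ?_
  have h5 : (I.filter fun i => Real.exp (-(A * Real.log l)) < (F i 1).re).card ≤ good F (l ^ (-A)) := by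
    unfold good
    rw [Nat.card_eq_fintype_card, Fintype.card_subtype]
    refine Finset.card_le_card fun i hi => ?_
    rw [Finset.mem_filter] at hi ⊢
    refine ⟨Finset.mem_univ _, hz i hi.1, (F i 1).re, ?_, (hx i hi.1).2⟩
    rw [Real.rpow_def_of_pos hl0, mul_neg, mul_comm]
    exact hi.2
  have h6 : ((I.filter fun i => Real.exp (-(A * Real.log l)) < (F i 1).re).card : ℝ) ≤ good F (l ^ (-A)) := by
    exact_mod_cast h5
  exact mul_le_mul_of_nonneg_left h6 (mul_nonneg (not_lt.1 hAC) hL.le)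

/-- **Large central values, the Riemann hypothesis, and one inequality for each level.** -/
theorem result (δ : ℝ) (h0 : 0 < δ) (h1 : δ < 1) :
    -- (1) one subfamily
    (∀ (M : ℕ) (S : Finset Prime) (a : Fin M → Prime → ℝ) (F : Fin M → ℂ → ℂ), Family M S a F →
      ∀ (I : Finset (Fin M)) (C : ℝ), 0 < C → List.TFAE [
        (∀ i ∈ I, NoZeros (F i)) ∧ ∃ A : ℝ, C ≤ A ∧ ∏ i ∈ I, F i 1 = A,
        ∀ ε : ℝ, 0 < ε → ∃ᶠ Y : ℝ in atTop, MeanBound δ (plus C (productStar S a I)) ε Y,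
        ∀ ε : ℝ, 0 < ε → ∀ᶠ Y : ℝ in atTop, MeanBound δ (plus C (productStar S a I)) ε Y]) ∧
    -- (2) from the geometric mean to the number of large values, `l = log N`
    (∀ (M : ℕ) (S : Finset Prime) (a : Fin M → Prime → ℝ) (F : Fin M → ℂ → ℂ), Family M S a F →
      (∀ i, 0 ≤ (F i 1).re) → ∀ (I : Finset (Fin M)) (l A B C₀ : ℝ), 1 < l → 0 ≤ A + C₀ →
        ∑ i, (F i 1).re ≤ M * l ^ C₀ →
        (∀ ε : ℝ, 0 < ε → ∃ᶠ Y : ℝ in atTop, MeanBound δ (plus (l ^ (-(B * I.card))) (productStar S a I)) ε Y) →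
        (A - B) * I.card * Real.log l - M ≤ (A + C₀) * Real.log l * good F (l ^ (-A))) ∧
    -- (3) all levels
    (∀ (N M : ℕ → ℕ) (S : ℕ → Finset Prime) (a : ∀ k, Fin (M k) → Prime → ℝ) (F : ∀ k, Fin (M k) → ℂ → ℂ),
      Tendsto N atTop atTop → (∀ k, Family (M k) (S k) (a k) (F k) ∧ ∀ i, 0 ≤ (F k i 1).re) →
      (∃ C₀ : ℝ, ∀ᶠ k in atTop, ∑ i, (F k i 1).re ≤ M k * Real.log (N k) ^ C₀) → List.TFAE [
        ∃ A θ : ℝ, 1 / 2 < θ ∧ ∀ᶠ k in atTop, θ * M k ≤ good (F k) (Real.log (N k) ^ (-A)),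
        ∃ B θ : ℝ, 1 / 2 < θ ∧ ∀ᶠ k in atTop, ∃ I : Finset (Fin (M k)), θ * M k ≤ I.card ∧
          ∀ ε : ℝ, 0 < ε → ∃ᶠ Y : ℝ in atTop,
            MeanBound δ (plus (Real.log (N k) ^ (-(B * I.card))) (productStar (S k) (a k) I)) ε Y,
        ∃ B θ : ℝ, 1 / 2 < θ ∧ ∀ᶠ k in atTop, ∃ I : Finset (Fin (M k)), θ * M k ≤ I.card ∧
          ∀ ε : ℝ, 0 < ε → ∀ᶠ Y : ℝ in atTop,
            MeanBound δ (plus (Real.log (N k) ^ (-(B * I.card))) (productStar (S k) (a k) I)) ε Y]) := by
  classical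
  have part2 : ∀ (M : ℕ) (S : Finset Prime) (a : Fin M → Prime → ℝ) (F : Fin M → ℂ → ℂ), Family M S a F →
      (∀ i, 0 ≤ (F i 1).re) → ∀ (I : Finset (Fin M)) (l A B C₀ : ℝ), 1 < l → 0 ≤ A + C₀ →
        ∑ i, (F i 1).re ≤ M * l ^ C₀ →
        (∀ ε : ℝ, 0 < ε → ∃ᶠ Y : ℝ in atTop, MeanBound δ (plus (l ^ (-(B * I.card))) (productStar S a I)) ε Y) →
        (A - B) * I.card * Real.log l - M ≤ (A + C₀) * Real.log l * good F (l ^ (-A)) := by
    intro M S a F h hnn I l A B C₀ hl hAC hsum hw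
    have hC : 0 < l ^ (-(B * I.card)) := Real.rpow_pos_of_pos (by linarith) _
    obtain ⟨hz, Q, hQ, hprod⟩ := ((lower h I h0 h1 hC).out 0 1).2 hw
    rcases from_mean h hnn I (A := A) (B := B) hl hsum hz hQ hprod with h2 | h2
    · exact h2
    · exact absurd hAC (not_le.2 h2)
  refine ⟨fun M S a F h I C hC => lower h I h0 h1 hC, part2, fun N M S a F hN hF hC₀ => ?_⟩
  obtain ⟨C₀, hC₀⟩ := hC₀
  have hlog : Tendsto (fun k => Real.log (N k)) atTop atTop :=
    Real.tendsto_log_atTop.comp (tendsto_natCast_atTop_atTop.comp hN)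
  have hloglog : Tendsto (fun k => Real.log (Real.log (N k))) atTop atTop := Real.tendsto_log_atTop.comp hlog
  tfae_have 1 → 3 := by
    rintro ⟨A, θ, hθ, hk⟩
    refine ⟨A, θ, hθ, ?_⟩
    filter_upwards [hk, hlog.eventually_gt_atTop 1] with k h2 h3
    set l := Real.log (N k) with hl
    have hl0 : 0 < l := by linarith
    set I : Finset (Fin (M k)) := Finset.univ.filter fun i =>
      NoZeros (F k i) ∧ ∃ x : ℝ, l ^ (-A) < x ∧ F k i 1 = x with hI
    have hcard : good (F k) (l ^ (-A)) = I.card := by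
      unfold good
      rw [Nat.card_eq_fintype_card, Fintype.card_subtype]
    refine ⟨I, by rw [← hcard]; exact h2, ?_⟩
    have hC : 0 < l ^ (-(A * I.card)) := Real.rpow_pos_of_pos hl0 _
    have lw := (lower (hF k).1 I h0 h1 hC).out 0 2
    refine lw.1 ⟨fun i hi => (Finset.mem_filter.1 hi).2.1, ?_⟩
    have h4 : ∀ i ∈ I, l ^ (-A) ≤ (F k i 1).re ∧ F k i 1 = ((F k i 1).re : ℂ) := by
      intro i hi
      obtain ⟨-, x, hx, he⟩ := (Finset.mem_filter.1 hi).2
      rw [he]
      simpa using hx.le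
    refine ⟨∏ i ∈ I, (F k i 1).re, ?_, ?_⟩
    · have h5 : ∏ _i ∈ I, l ^ (-A) ≤ ∏ i ∈ I, (F k i 1).re :=
        Finset.prod_le_prod (fun i _ => (Real.rpow_pos_of_pos hl0 _).le) fun i hi => (h4 i hi).1
      rw [Finset.prod_const, ← Real.rpow_natCast, ← Real.rpow_mul hl0.le] at h5
      rwa [neg_mul] at h5
    · push_cast
      exact Finset.prod_congr rfl fun i hi => (h4 i hi).2
  tfae_have 3 → 2 := by
    rintro ⟨B, θ, hθ, hk⟩
    refine ⟨B, θ, hθ, hk.mono ?_⟩
    rintro k ⟨I, h2, h3⟩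
    exact ⟨I, h2, fun ε hε => (h3 ε hε).frequently⟩
  tfae_have 2 → 1 := by
    rintro ⟨B, θ, hθ, hk⟩
    set θ' : ℝ := (θ + 1 / 2) / 2 with hθ'
    have h2 : 1 / 2 < θ' := by rw [hθ']; linarith
    have h3 : 0 < θ - θ' := by rw [hθ']; linarith
    -- a large exponent
    obtain ⟨A, hA1, hA2, hA3⟩ : ∃ A : ℝ, B ≤ A ∧ 0 < A + C₀ ∧ θ' * (A + C₀) + 1 ≤ θ * (A - B) := by
      set A := max (max B (1 - C₀)) ((θ' * C₀ + θ * B + 1) / (θ - θ')) with hA
      have g1 : B ≤ A := (le_max_left _ _).trans (le_max_left _ _)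
      have g2 : 1 - C₀ ≤ A := (le_max_right _ _).trans (le_max_left _ _)
      have g3 : (θ' * C₀ + θ * B + 1) / (θ - θ') ≤ A := le_max_right _ _
      rw [div_le_iff₀ h3] at g3
      exact ⟨A, g1, by linarith, by nlinarith⟩
    refine ⟨A, θ', h2, ?_⟩
    filter_upwards [hk, hC₀, hlog.eventually_gt_atTop 1, hloglog.eventually_ge_atTop 1] with k h4 h5 h6 h7
    obtain ⟨I, h8, h9⟩ := h4
    have h10 := part2 (M k) (S k) (a k) (F k) (hF k).1 (hF k).2 I (Real.log (N k)) A B C₀ h6 hA2.le h5 h9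
    set L := Real.log (Real.log (N k)) with hL
    set g := (good (F k) (Real.log (N k) ^ (-A)) : ℝ) with hg
    have hM : (0 : ℝ) ≤ M k := Nat.cast_nonneg _
    have hAB : 0 ≤ A - B := by linarith
    have h11 : (A - B) * (θ * M k) * L ≤ (A - B) * I.card * L := by
      have : (A - B) * (θ * M k) ≤ (A - B) * I.card := mul_le_mul_of_nonneg_left h8 hAB
      exact mul_le_mul_of_nonneg_right this (by linarith)
    have h12 : (θ' * (A + C₀) + 1) * (M k * L) ≤ (θ * (A - B)) * (M k * L) :=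
      mul_le_mul_of_nonneg_right hA3 (mul_nonneg hM (by linarith))
    have h13 : (M k : ℝ) ≤ M k * L := le_mul_of_one_le_right hM h7
    have h14 : (A + C₀) * L * (θ' * M k) ≤ (A + C₀) * L * g := by nlinarith
    exact le_of_mul_le_mul_left h14 (mul_pos hA2 (by linarith))
  tfae_finish

end Pool.Agent.Results.MP_cc4f83_nt.GeometricMeanWindows
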