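import Mathlib
import Pool.Agent.Q190.RV.Quad
import Pool.Agent.Q190.RV.Many
import Pool.Agent.Q190.RV.StarReal

/-!
# Central values of the newforms of prime level with even functional equation, from one exponent

Let `N` be a prime, `f_1, …, f_M` the newforms of `H_2^+(N)`, `a_i(p)` the `p`-th Hecke eigenvalue of `f_i` (`|a_i(p)| ≤ 2 √p`),
`S` a finite set of primes containing `N`, and `F_i(s) = ∏_{p ∉ S} (1 - a_i(p) p^{-s} + p^{1-2s})⁻¹`, so that
`F_i(s) = L(s - 1/2, f_i)` up to the Euler factors at `S` (positive at the centre `s = 1`), entire, of polynomial growth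
and of even order at `s = 1`. Take ONE product for the whole family:

`P(y) = ∏_i ∏_{p ∉ S, p ≤ y} (p + 1 - a_i(p))/p`, `P*(y)` the same product with the prime powers up to `y`.

Let `z` be the number of the `i` with `L(1/2, f_i) = 0`. Nothing is supposed on the zeros. For `R = P` and `R = P*`:

1. If `R(y^l) ≤ Q R(y)` for all large `y`, for ONE `l > 1`, then no `F_i` has a zero with `Re s > 1`, and `l^(2z) ≤ Q`. So the
   proportion of the central values which are not zero is at least `1 - log Q / (2 M log l)`; it is more than one half if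
   `Q < l^M`, and all the central values are different from zero if `Q < l²`.
2. For every `l > 1` and `Q < l^(2z)` there are arbitrarily large `y` with `R(y^l) > Q R(y)`, whether or not there are zeros.
3. (All levels.) Let `N` run through a sequence of levels with families of `M_N ≥ 1` forms, and suppose that for each `N`
   there are `l > 1` and `Q > 0` with `log Q ≤ θ M_N log l` and `P_N(y^l) ≤ Q P_N(y)` for all large `y` (how large may depend on
   `N`). Then for each `N` the proportion of the central values which are not zero is at least `1 - θ/2`; more than one half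
   if `θ < 1`, the weaker open question of the problem.
4. (The geometric mean.) `1 / P*(y)` converges to a positive number `A` if and only if all central values are different
   from zero, `∏_i F_i(1) = A`, and for all `l` in a set of positive outer measure in `(1, ∞)` and all `ε > 0` one has
   `P*(y^l) ≤ (1 + ε) P*(y)` for all large `y`.
-/

set_option autoImplicit false

namespace Pool.Agent.Results.MP_cc4f83_nt.OneExponentFamily

open Filter Topology Set Complex NumberField IsDedekindDomain MeasureTheory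
open Pool.Agent.Q190.RV.Quad (Bound Euler)

/-- the finite places of `ℚ`, the primes -/
abbrev Prime := HeightOneSpectrum (𝓞 ℚ)

variable {M : ℕ}

/-- A family of `M` Euler products `F_i(s) = ∏_{p ∉ S} (1 - a_i(p) p^{-s} + p^{1-2s})⁻¹`, `|a_i(p)| ≤ 2 √p`, holomorphic and of
polynomial growth in a half plane `Re s > 1 - η`, of even order at `1`. -/
structure Family (M : ℕ) (S : Finset Prime) (a : Fin M → Prime → ℝ) (F : Fin M → ℂ → ℂ) : Prop where
  bound : ∀ i, Bound S (a i)
  euler : ∀ i, Euler S (a i) (F i)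
  holo : ∀ i, ∃ (η C : ℝ) (k : ℕ), 0 < η ∧ ∀ s : ℂ, 1 - η < s.re → DifferentiableAt ℂ (F i) s ∧ ‖F i s‖ ≤ C * (1 + ‖s‖) ^ k
  even : ∀ i, ∀ m : ℕ, analyticOrderAt (F i) 1 = m → Even m

/-- `P(y) = ∏_i ∏_{p ∉ S, p ≤ y} (p + 1 - a_i(p))/p` -/
noncomputable def product (S : Finset Prime) (a : Fin M → Prime → ℝ) (y : ℝ) : ℝ :=
  ∏ i, Pool.Agent.Q190.RV.Quad.product S (a i) y

/-- `P*(y)`, the same product with the prime powers up to `y` -/
noncomputable def productStar (S : Finset Prime) (a : Fin M → Prime → ℝ) (y : ℝ) : ℝ :=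
  ∏ i, Pool.Agent.Q190.RV.Quad.productStar S (a i) y

/-- the number of the `i` with `F_i(1) = 0` -/
noncomputable def vanishing (F : Fin M → ℂ → ℂ) : ℕ := Nat.card {i // F i 1 = 0}

/-- `F` has no zeros with `Re s > 1`. -/
def NoZeros (F : ℂ → ℂ) : Prop := ∀ s : ℂ, 1 < s.re → F s ≠ 0

/-- There is a set `Λ ⊆ (1, ∞)` of positive (outer) Lebesgue measure such that for every `l ∈ Λ` and `ε > 0`,
`P(y^l) ≤ (1 + ε) P(y)` for all large `y`. -/
def Slow (P : ℝ → ℝ) : Prop :=
  ∃ Λ : Set ℝ, Λ ⊆ Ioi 1 ∧ volume Λ ≠ 0 ∧ ∀ l ∈ Λ, ∀ ε : ℝ, 0 < ε → ∀ᶠ y : ℝ in atTop, P (y ^ l) ≤ (1 + ε) * P y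

/-- one family -/
theorem family {S : Finset Prime} {a : Fin M → Prime → ℝ} {F : Fin M → ℂ → ℂ} (h : Family M S a F) :
    (∀ R : ℝ → ℝ, R = product S a ∨ R = productStar S a →
      (∀ l Q : ℝ, 1 < l → (∀ᶠ y : ℝ in atTop, R (y ^ l) ≤ Q * R y) →
        (∀ i, NoZeros (F i)) ∧ l ^ (2 * vanishing F) ≤ Q ∧ (Q < l ^ M → M < 2 * (M - vanishing F)) ∧
          (Q < l ^ 2 → ∀ i, F i 1 ≠ 0)) ∧
      (∀ l Q : ℝ, 1 < l → Q < l ^ (2 * vanishing F) → ∃ᶠ y : ℝ in atTop, Q * R y < R (y ^ l))) ∧
    (∀ A : ℝ, 0 < A → (Tendsto (fun y : ℝ => 1 / productStar S a y) atTop (𝓝 A) ↔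
      (∀ i, F i 1 ≠ 0) ∧ ∏ i, F i 1 = A ∧ Slow (productStar S a))) := by
  classical
  set r : (i : Fin M) → Prime → Fin 2 → ℂ := fun i => Pool.Agent.Q190.RV.Quad.al (a i) with hr
  have hp : ∀ i, Pool.Agent.Q18.P.Pure 1 S (r i) := fun i => Pool.Agent.Q190.RV.Quad.pure (h.bound i)
  have hP : Pool.Agent.Q18.P.Pure 1 S (Pool.Agent.Q18.P.cat (N := fun _ : Fin M => 2) r) :=
    Pool.Agent.Q18.P.cat_pure hp
  have hHi : ∀ i, Pool.Agent.Q190.RV.Holo 1 S (r i) (F i) := fun i =>
    ⟨h.holo i, fun s hs => Pool.Agent.Q190.RV.Quad.euler (h.bound i) (h.euler i) hs⟩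
  have hH : Pool.Agent.Q190.RV.Holo 1 S (Pool.Agent.Q18.P.cat (N := fun _ : Fin M => 2) r) (fun s => ∏ i, F i s) :=
    Pool.Agent.Q190.RV.Holo.cat hHi
  obtain ⟨e, he, hm⟩ := Pool.Agent.Q190.RV.orders Pool.Agent.Q190.RV.Quad.one_c (N := fun _ : Fin M => 2)
    (fun i => (hp i).le) hHi
  have e1 : product S a = Pool.Agent.Q18.P.product 1 S (Pool.Agent.Q18.P.cat (N := fun _ : Fin M => 2) r) := by
    funext y
    rw [Pool.Agent.Q18.P.product_cat]
    unfold product
    refine Finset.prod_congr rfl fun i _ => ?_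
    rw [Pool.Agent.Q190.RV.Quad.product_eq (h.bound i)]
  have e2 : productStar S a = Pool.Agent.Q18.P.productStar 1 S (Pool.Agent.Q18.P.cat (N := fun _ : Fin M => 2) r) := by
    funext y
    rw [Pool.Agent.Q18.P.star_cat]
    unfold productStar
    refine Finset.prod_congr rfl fun i _ => ?_
    rw [Pool.Agent.Q190.RV.Quad.star_eq (h.bound i)]
  have hz : Pool.Agent.Q18.P.NoZeros 1 (fun s => ∏ i, F i s) ↔ ∀ i, NoZeros (F i) := Pool.Agent.Q18.P.noZeros_prod
  have he' : ∀ i, analyticOrderAt (F i) 1 = e i := fun i => by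
    have := he i
    rwa [Complex.ofReal_one] at this
  have heven : ∀ i, e i % 2 = 0 := fun i => Nat.even_iff.1 (h.even i _ (he' i))
  have hzero : ∀ i, F i 1 = 0 ↔ e i ≠ 0 := by
    intro i
    have han : AnalyticAt ℂ (F i) 1 := by
      have := (hHi i).analytic.1
      rwa [Complex.ofReal_one] at this
    have h1 := han.analyticOrderAt_eq_zero
    rw [he' i] at h1
    have h2 : e i = 0 ↔ F i 1 ≠ 0 := by
      rw [← h1]
      exact Nat.cast_eq_zero.symm
    constructor
    · intro h3 h4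
      exact h2.1 h4 h3
    · intro h3
      by_contra h4
      exact h3 (h2.2 h4)
  have hcount : 2 * vanishing F ≤ ∑ i, e i := by
    have hcard : vanishing F = ∑ i : Fin M, if F i 1 = 0 then 1 else 0 := by
      unfold vanishing
      rw [Finset.sum_boole, Nat.card_eq_fintype_card, Fintype.card_subtype]
      rfl
    rw [hcard, Finset.mul_sum]
    refine Finset.sum_le_sum fun i _ => ?_
    have h2 := heven i
    split_ifs with h3
    · have := (hzero i).1 h3
      omega
    · omega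
  have hle : vanishing F ≤ M := by
    unfold vanishing
    rw [Nat.card_eq_fintype_card]
    refine (Fintype.card_subtype_le _).trans ?_
    simp
  have hv0 : vanishing F = 0 → ∀ i, F i 1 ≠ 0 := by
    intro h1 i h2
    unfold vanishing at h1
    rw [Nat.card_eq_fintype_card, Fintype.card_eq_zero_iff] at h1
    exact h1.elim ⟨i, h2⟩
  rw [e1, e2]
  refine ⟨fun R hR => ?_, fun A hA => ?_⟩
  · have hR' : Pool.Agent.Q190.RV.Ratios 1 (fun s => ∏ i, F i s) (∑ i, e i) R := by
      rcases hR with rfl | rfl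
      · exact Pool.Agent.Q190.RV.ratios Pool.Agent.Q190.RV.Quad.one_c hP.le hH hm
      · exact Pool.Agent.Q190.RV.ratios_star Pool.Agent.Q190.RV.Quad.one_c hP.le hH hm
    refine ⟨fun l Q hl hQ => ?_, fun l Q hl hQ => ?_⟩
    · obtain ⟨h1, h2⟩ := hR'.upper l Q hl hQ
      refine ⟨hz.1 h1, (pow_le_pow_right₀ hl.le hcount).trans h2, fun h3 => ?_, fun h3 => ?_⟩
      · have := hR'.lt hl hQ h3
        omega
      · have := hR'.lt hl hQ h3
        exact hv0 (by omega)
    · exact hR'.freq hl (lt_of_lt_of_le hQ (pow_le_pow_right₀ hl.le hcount))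
  · rw [Pool.Agent.Q190.RV.formula_iff Pool.Agent.Q190.RV.Quad.one_c hP hH one_pos hA.ne']
    rw [Complex.ofReal_one, one_mul]
    constructor
    · rintro ⟨h1, h2⟩
      refine ⟨fun i h3 => ?_, h1.symm, h2⟩
      rw [Finset.prod_eq_zero (Finset.mem_univ i) h3] at h1
      exact hA.ne' (by exact_mod_cast h1)
    · rintro ⟨-, h2, h3⟩
      exact ⟨h2.symm, h3⟩

/-- **Central values of newforms of prime level from one exponent.** -/
theorem result :
    -- (1), (2), (4) one family
    (∀ (M : ℕ) (S : Finset Prime) (a : Fin M → Prime → ℝ) (F : Fin M → ℂ → ℂ), Family M S a F →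
      (∀ R : ℝ → ℝ, R = product S a ∨ R = productStar S a →
        (∀ l Q : ℝ, 1 < l → (∀ᶠ y : ℝ in atTop, R (y ^ l) ≤ Q * R y) →
          (∀ i, NoZeros (F i)) ∧ l ^ (2 * vanishing F) ≤ Q ∧ (Q < l ^ M → M < 2 * (M - vanishing F)) ∧
            (Q < l ^ 2 → ∀ i, F i 1 ≠ 0)) ∧
        (∀ l Q : ℝ, 1 < l → Q < l ^ (2 * vanishing F) → ∃ᶠ y : ℝ in atTop, Q * R y < R (y ^ l))) ∧
      (∀ A : ℝ, 0 < A → (Tendsto (fun y : ℝ => 1 / productStar S a y) atTop (𝓝 A) ↔
        (∀ i, F i 1 ≠ 0) ∧ ∏ i, F i 1 = A ∧ Slow (productStar S a)))) ∧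
    -- (3) all levels
    (∀ (M : ℕ → ℕ) (S : ℕ → Finset Prime) (a : ∀ N, Fin (M N) → Prime → ℝ) (F : ∀ N, Fin (M N) → ℂ → ℂ) (θ : ℝ),
      (∀ N, 0 < M N ∧ Family (M N) (S N) (a N) (F N) ∧ ∃ l Q : ℝ, 1 < l ∧ 0 < Q ∧ Real.log Q ≤ θ * M N * Real.log l ∧
        ∀ᶠ y : ℝ in atTop, product (S N) (a N) (y ^ l) ≤ Q * product (S N) (a N) y) →
      ∀ N, (1 - θ / 2) * M N ≤ Nat.card {i // F N i 1 ≠ 0}) := by
  classical
  refine ⟨fun M S a F h => family h, fun M S a F θ h N => ?_⟩
  obtain ⟨h0, h1, l, Q, hl, hQ0, hQ, h2⟩ := h N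
  have h3 := (((family h1).1 _ (Or.inl rfl)).1 l Q hl h2).2.1
  have h4 := Real.log_le_log (pow_pos (by linarith) _) h3
  rw [Real.log_pow] at h4
  have h5 := Real.log_pos hl
  have h6 : ((2 * vanishing (F N) : ℕ) : ℝ) ≤ θ * M N := by
    have := h4.trans hQ
    exact le_of_mul_le_mul_right this h5
  have h7 : (Nat.card {i // F N i 1 ≠ 0} : ℝ) = M N - vanishing (F N) := by
    have h8 := Fintype.card_subtype_compl (fun i => F N i 1 = 0)
    have h9 : Fintype.card {i // F N i 1 = 0} ≤ Fintype.card (Fin (M N)) := Fintype.card_subtype_le _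
    unfold vanishing
    rw [Nat.card_eq_fintype_card, Nat.card_eq_fintype_card]
    have h10 : Fintype.card {i // F N i 1 ≠ 0} = Fintype.card (Fin (M N)) - Fintype.card {i // F N i 1 = 0} := by
      rw [← h8]
    rw [h10, Nat.cast_sub h9, Fintype.card_fin]
  rw [h7]
  push_cast at h6
  linarith

end Pool.Agent.Results.MP_cc4f83_nt.OneExponentFamily
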